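import Pool.Agent.Helper75.OE.GoalsB

/-!
 Project OE (MP_fc0446_an), packet SIZE: a counting statement about finite rooted trees.
-/

namespace Pool.Agent.Helper44.OE

open Pool.Agent.Helper73.OE Pool.Agent.Helper73.OE.Sys Pool.Agent.Helper75.OE Finset

open Classical in
/-- directions to children in `C` -/
noncomputable def chd {H S L : Type} [Group H] [Fintype S] (X : Sys H S L) (o : H) (C : Finset H)
    (z : H) : Finset S :=
  univ.filter fun c => X.nb z c ∈ C ∧ X.dist o (X.nb z c) = X.dist o z + 1

lemma mem_chd {H S L : Type} [Group H] [Fintype S] (X : Sys H S L) (o : H) (C : Finset H)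
    (z : H) (c : S) : c ∈ chd X o C z ↔ X.nb z c ∈ C ∧ X.dist o (X.nb z c) = X.dist o z + 1 := by
  simp [chd]

open Classical in
/-- parent -/
noncomputable def pr {H S L : Type} [Group H] (X : Sys H S L) (o z : H) : H :=
  if h : z ≠ o then X.nb z (X.exists_parent h).choose else z

lemma pr_spec {H S L : Type} [Group H] (X : Sys H S L) {o z : H} (h : z ≠ o) :
    ∃ r, pr X o z = X.nb z r ∧ X.dist o z = X.dist o (X.nb z r) + 1 := by
  refine ⟨(X.exists_parent h).choose, ?_, (X.exists_parent h).choose_spec⟩
  unfold pr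
  rw [dif_pos h]

open Classical in
lemma sum_chd {H S L : Type} [Group H] [Fintype S] (X : Sys H S L) (o : H) (C : Finset H)
    (hC : X.PC o (C : Set H)) : ∑ z ∈ C, (chd X o C z).card + 1 = C.card := by
  have ho : o ∈ C := hC.1
  have h1 : (C.erase o).card = ∑ w ∈ C, ((C.erase o).filter fun z => pr X o z = w).card := by
    apply Finset.card_eq_sum_card_fiberwise
    intro z hz
    have hz' : z ∈ C.erase o := hz
    rw [Finset.mem_erase] at hz'
    obtain ⟨r, hr1, hr2⟩ := pr_spec X hz'.1
    rw [hr1]
    exact hC.2 z hz'.2 r hr2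
  have h2 : ∀ w ∈ C, ((C.erase o).filter fun z => pr X o z = w).card = (chd X o C w).card := by
    intro w hw
    symm
    refine Finset.card_bij (fun c _ => X.nb w c) ?_ ?_ ?_
    · intro c hc
      rw [mem_chd] at hc
      have hne : X.nb w c ≠ o := by
        intro h
        rw [h, X.dist_self] at hc
        omega
      rw [Finset.mem_filter, Finset.mem_erase]
      refine ⟨⟨hne, hc.1⟩, ?_⟩
      obtain ⟨r, hr1, hr2⟩ := pr_spec X hne
      have hb : X.dist o (X.nb w c) = X.dist o (X.nb (X.nb w c) (X.bar c)) + 1 := by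
        rw [X.nb_bar]; exact hc.2
      have := X.parent_unique hr2 hb
      rw [hr1, this, X.nb_bar]
    · intro c1 _ c2 _ h
      exact X.nb_inj h
    · intro z hz
      rw [Finset.mem_filter, Finset.mem_erase] at hz
      obtain ⟨r, hr1, hr2⟩ := pr_spec X hz.1.1
      have hw' : X.nb z r = w := by rw [← hr1]; exact hz.2
      refine ⟨X.bar r, ?_, ?_⟩
      · rw [mem_chd, ← hw', X.nb_bar]
        exact ⟨hz.1.2, hr2⟩
      · rw [← hw', X.nb_bar]
  rw [Finset.sum_congr rfl h2] at h1
  rw [← h1, Finset.card_erase_of_mem ho]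
  have : 0 < C.card := Finset.card_pos.mpr ⟨o, ho⟩
  omega

open Classical in
lemma card_A2 {H S L : Type} [Group H] [Fintype S] (X : Sys H S L) (o : H) (C : Finset H)
    (hC : X.PC o (C : Set H)) :
    (C.filter fun z => 2 ≤ (chd X o C z).card).card + 1 ≤
      (C.filter fun z => (chd X o C z).card = 0).card := by
  have h1 := sum_chd X o C hC
  have h2 : ∑ z ∈ C, (1 + if 2 ≤ (chd X o C z).card then 1 else 0) ≤
      ∑ z ∈ C, ((chd X o C z).card + if (chd X o C z).card = 0 then 1 else 0) := by
    apply Finset.sum_le_sum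
    intro z _
    split_ifs <;> omega
  rw [Finset.sum_add_distrib, Finset.sum_add_distrib, ← Finset.card_filter,
    ← Finset.card_filter, Finset.sum_const, smul_eq_mul, mul_one] at h2
  omega

theorem size : B_SIZE := by
  classical
  intro H S L _ _ X o C base hC hbC hob hch
  let A0 := C.filter fun z => (chd X o C z).card = 0
  let A2 := C.filter fun z => 2 ≤ (chd X o C z).card
  have hA0 : A0 ⊆ base := by
    intro z hz
    rw [Finset.mem_filter] at hz
    by_contra hb
    obtain ⟨c, hc1, hc2⟩ := hch z hz.1 hb
    have : c ∈ chd X o C z := (mem_chd X o C z c).2 ⟨hc1, hc2⟩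
    rw [Finset.card_eq_zero] at hz
    rw [hz.2] at this
    exact absurd this (Finset.notMem_empty _)
  have hA2 : A2.card + 1 ≤ A0.card := card_A2 X o C hC
  have hA0c : A0.card ≤ base.card := Finset.card_le_card hA0
  let base' := base ∪ A2
  have hb'c : base'.card ≤ 2 * base.card := by
    have h : base'.card ≤ base.card + A2.card := Finset.card_union_le base A2
    omega
  have hb'C : base' ⊆ C := Finset.union_subset hbC (Finset.filter_subset _ _)
  let N := ((base' ×ˢ (univ : Finset S)).image fun p => X.nb p.1 p.2).filter fun z => z ∈ C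
  have hN : N.card ≤ base'.card * Fintype.card S := by
    calc N.card ≤ ((base' ×ˢ (univ : Finset S)).image fun p => X.nb p.1 p.2).card :=
          Finset.card_filter_le _ _
      _ ≤ (base' ×ˢ (univ : Finset S)).card := Finset.card_image_le
      _ = base'.card * Fintype.card S := by rw [Finset.card_product]; rfl
  have hmemN : ∀ b ∈ base', ∀ s, X.nb b s ∈ C → X.nb b s ∈ N := by
    intro b hb s hs
    rw [Finset.mem_filter, Finset.mem_image]
    exact ⟨⟨(b, s), Finset.mem_product.2 ⟨hb, Finset.mem_univ _⟩, rfl⟩, hs⟩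
  refine ⟨base' ∪ N, ?_, ?_, ?_, ?_⟩
  · exact Finset.subset_union_left.trans Finset.subset_union_left
  · refine Finset.union_subset hb'C ?_
    intro z hz
    exact (Finset.mem_filter.1 hz).2
  · calc (base' ∪ N).card ≤ base'.card + N.card := Finset.card_union_le _ _
      _ ≤ base'.card + base'.card * Fintype.card S := by omega
      _ = (Fintype.card S + 1) * base'.card := by ring
      _ ≤ (Fintype.card S + 1) * (2 * base.card) := Nat.mul_le_mul_left _ hb'c
      _ = 2 * (Fintype.card S + 1) * base.card := by ring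
  · -- a vertex outside base' has exactly one child
    have one : ∀ z ∈ C, z ∉ base' → ∃ c, chd X o C z = {c} := by
      intro z hz hzb
      rw [Finset.mem_union, not_or] at hzb
      rw [← Finset.card_eq_one]
      have h0 : (chd X o C z).card ≠ 0 := by
        intro h
        exact hzb.1 (hA0 (Finset.mem_filter.2 ⟨hz, h⟩))
      have h2 : ¬ 2 ≤ (chd X o C z).card := by
        intro h
        exact hzb.2 (Finset.mem_filter.2 ⟨hz, h⟩)
      omega
    have nbrs : ∀ z ∈ C, ∀ r c, X.dist o z = X.dist o (X.nb z r) + 1 → chd X o C z = {c} →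
        ∀ c', X.nb z c' ∈ C → c' = r ∨ c' = c := by
      intro z hz r c hr hc c' hc'
      rcases X.dist_nb o z c' with h | h
      · right
        have : c' ∈ chd X o C z := (mem_chd X o C z c').2 ⟨hc', h⟩
        rw [hc, Finset.mem_singleton] at this
        exact this
      · left
        exact X.parent_unique h hr
    intro z hz hzS
    rw [Finset.mem_union, not_or] at hzS
    have hzo : z ≠ o := by
      rintro rfl
      exact hzS.1 (Finset.mem_union_left _ hob)
    obtain ⟨c, hc⟩ := one z hz hzS.1
    obtain ⟨r, hr⟩ := X.exists_parent hzo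
    have hrC : X.nb z r ∈ C := hC.2 z hz r hr
    have hrb : X.nb z r ∉ base' := by
      intro h
      have := hmemN _ h (X.bar r) (by rw [X.nb_bar]; exact hz)
      rw [X.nb_bar] at this
      exact hzS.2 this
    have hro : X.nb z r ≠ o := by
      intro h
      apply hrb
      rw [h]
      exact Finset.mem_union_left _ hob
    obtain ⟨r', hr'⟩ := X.exists_parent hro
    obtain ⟨c1, hc1⟩ := one _ hrC hrb
    have hbar : X.bar r ∈ chd X o C (X.nb z r) := by
      rw [mem_chd, X.nb_bar]
      exact ⟨hz, hr⟩
    have hc1' : chd X o C (X.nb z r) = {X.bar r} := by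
      rw [hc1, Finset.mem_singleton] at hbar
      rw [hc1, hbar]
    have hcm : c ∈ chd X o C z := by rw [hc]; exact Finset.mem_singleton_self _
    rw [mem_chd] at hcm
    refine ⟨r, c, r', hr, hr', ?_, ?_, hcm.1, hrC, ?_, nbrs z hz r c hr hc, ?_⟩
    · rintro rfl
      omega
    · rintro rfl
      rw [X.nb_bar] at hr'
      omega
    · intro h
      exact hrb (Finset.mem_union_left _ h)
    · exact nbrs _ hrC r' (X.bar r) hr' hc1'

end Pool.Agent.Helper44.OE
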