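import Pool.Agent.Helper79.OE.GoalsD

/-!
 Project OE (MP_fc0446_an), packet EQB: the batch is equivariant.
-/

namespace Pool.Agent.Helper44.OE

open Pool.Agent.Helper73.OE Pool.Agent.Helper73.OE.Sys Pool.Agent.Helper79.OE
open Filter

variable {H S L : Type} [Group H]

/-- translation of a directed edge -/
def tr (g : H) (e : H × S) : H × S := (g * e.1, e.2)

lemma tr_inv (g : H) (e : H × S) : tr g (tr g⁻¹ e) = e := by
  simp [tr]

lemma inv_tr (g : H) (e : H × S) : tr g⁻¹ (tr g e) = e := by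
  simp [tr]

/-- translation of a set -/
def trS (g : H) (Λ : Set H) : Set H := {z | g⁻¹ * z ∈ Λ}

lemma actE_apply {α : Type} (g : H) (η : H × S → α) (e : H × S) :
    Sys.actE g η e = η (tr g⁻¹ e) := rfl

lemma rev_tr (X : Sys H S L) (g : H) (e : H × S) : X.rev (tr g e) = tr g (X.rev e) :=
  X.rev_mul g e

lemma Cl_act (X : Sys H S L) (g : H) (ε : ℝ) (η : Env H S) (v : H) (s : S) :
    X.Cl ε (Sys.actE g η) v s ↔ X.Cl ε η (g⁻¹ * v) s := by
  have h : X.rev (g⁻¹ * v, s) = tr g⁻¹ (X.rev (v, s)) := rev_tr X g⁻¹ (v, s)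
  unfold Sys.Cl
  rw [h]
  exact Iff.rfl

lemma Op_act (X : Sys H S L) (g : H) (ε : ℝ) (η : Env H S) :
    X.Op ε (Sys.actE g η) = shE g (X.Op ε η) := by
  funext v s
  exact propext (not_congr (Cl_act X g ε η v s))

lemma Si_act (X : Sys H S L) (g : H) (ε ε' : ℝ) (η : Env H S) (e : H × S) :
    X.Si ε ε' (Sys.actE g η) e.1 e.2 ↔ X.Si ε ε' η (tr g⁻¹ e).1 (tr g⁻¹ e).2 :=
  and_congr (Cl_act X g ε η e.1 e.2) (not_congr (Cl_act X g ε' η e.1 e.2))

lemma Pos_act (X : Sys H S L) (g : H) (η : Env H S) (e : H × S) :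
    X.Pos (Sys.actE g η) e ↔ X.Pos η (tr g⁻¹ e) := by
  unfold Sys.Pos
  rw [actE_apply, actE_apply, rev_tr]

lemma prio_act (X : Sys H S L) (g : H) (η : Env H S) (e : H × S) :
    X.prio (Sys.actE g η) e = X.prio η (tr g⁻¹ e) := by
  unfold Sys.prio
  rw [actE_apply, actE_apply, rev_tr]

lemma mem_trS (g : H) (Λ : Set H) (z : H) : z ∈ trS g Λ ↔ g⁻¹ * z ∈ Λ := Iff.rfl

lemma mem_map_tr (g : H) (l : List (H × S)) (e : H × S) :
    e ∈ l.map (tr g⁻¹) ↔ tr g e ∈ l := by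
  rw [List.mem_map]
  constructor
  · rintro ⟨a, ha, rfl⟩
    rw [tr_inv]; exact ha
  · intro h
    exact ⟨_, h, inv_tr g e⟩

lemma IsOrd_act (X : Sys H S L) (g : H) (ε ε' : ℝ) (η : Env H S) (Λ : Set H)
    (l : List (H × S)) : X.IsOrd ε ε' (Sys.actE g η) (trS g Λ) l ↔
      X.IsOrd ε ε' η Λ (l.map (tr g⁻¹)) := by
  unfold Sys.IsOrd
  apply and_congr
  · rw [List.pairwise_map]
    simp only [prio_act]
  · have key : ∀ e : H × S, (X.Si ε ε' (Sys.actE g η) e.1 e.2 ∧ e.1 ∈ trS g Λ ∧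
        X.nb e.1 e.2 ∈ trS g Λ ∧ X.Pos (Sys.actE g η) e) ↔
        (X.Si ε ε' η (tr g⁻¹ e).1 (tr g⁻¹ e).2 ∧ (tr g⁻¹ e).1 ∈ Λ ∧
        X.nb (tr g⁻¹ e).1 (tr g⁻¹ e).2 ∈ Λ ∧ X.Pos η (tr g⁻¹ e)) := by
      intro e
      rw [Si_act, Pos_act]
      have : X.nb (tr g⁻¹ e).1 (tr g⁻¹ e).2 = g⁻¹ * X.nb e.1 e.2 := X.nb_mul g⁻¹ e.1 e.2
      rw [this]
      exact Iff.rfl
    constructor
    · intro h e
      rw [mem_map_tr, h, key, inv_tr]
    · intro h e
      rw [key, ← h, mem_map_tr, tr_inv]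

lemma ordL_act (hO : D_ORD) (X : Sys H S L) (g : H) (ε ε' : ℝ) (η : Env H S) (Λ : Set H) :
    X.ordL ε ε' (Sys.actE g η) (trS g Λ) = (X.ordL ε ε' η Λ).map (tr g) := by
  have hmm : ∀ l : List (H × S), (l.map (tr g)).map (tr g⁻¹) = l := by
    intro l
    rw [List.map_map]
    conv_rhs => rw [← List.map_id l]
    apply List.map_congr_left
    intro e _
    exact inv_tr g e
  by_cases h : ∃ l, X.IsOrd ε ε' η Λ l
  · have h' : ∃ l, X.IsOrd ε ε' (Sys.actE g η) (trS g Λ) l := by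
      obtain ⟨l, hl⟩ := h
      exact ⟨l.map (tr g), (IsOrd_act X g ε ε' η Λ _).2 (by rw [hmm]; exact hl)⟩
    have e1 : X.ordL ε ε' η Λ = h.choose := by unfold Sys.ordL; rw [dif_pos h]
    have e2 : X.ordL ε ε' (Sys.actE g η) (trS g Λ) = h'.choose := by
      unfold Sys.ordL; rw [dif_pos h']
    rw [e1, e2]
    refine (hO X ε ε' (Sys.actE g η) (trS g Λ)).1 _ _ h'.choose_spec ?_
    exact (IsOrd_act X g ε ε' η Λ _).2 (by rw [hmm]; exact h.choose_spec)
  · have h' : ¬ ∃ l, X.IsOrd ε ε' (Sys.actE g η) (trS g Λ) l := by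
      rintro ⟨l, hl⟩
      exact h ⟨_, (IsOrd_act X g ε ε' η Λ l).1 hl⟩
    unfold Sys.ordL
    rw [dif_neg h, dif_neg h']
    rfl

lemma addE_act (X : Sys H S L) (g : H) (O : Edges H S) (e : H × S) :
    X.addE (shE g O) (tr g e) = shE g (X.addE O e) := by
  funext v s
  have h1 : ((v, s) = tr g e) = ((g⁻¹ * v, s) = e) := by
    apply propext
    constructor
    · intro h
      have := congrArg (tr g⁻¹) h
      rw [inv_tr] at this
      exact this
    · intro h
      rw [← h]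
      simp [tr]
  have h2 : ((v, s) = X.rev (tr g e)) = ((g⁻¹ * v, s) = X.rev e) := by
    rw [rev_tr]
    apply propext
    constructor
    · intro h
      have := congrArg (tr g⁻¹) h
      rw [inv_tr] at this
      exact this
    · intro h
      rw [← h]
      simp [tr]
  unfold Sys.addE shE
  rw [h1, h2]

lemma inside_act (X : Sys H S L) (g : H) (O : Edges H S) (Λ : Set H) :
    X.inside (trS g Λ) (shE g O) = shE g (X.inside Λ O) := by
  funext v s
  change (O (g⁻¹ * v) s ∧ g⁻¹ * v ∈ Λ ∧ g⁻¹ * X.nb v s ∈ Λ) =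
    (O (g⁻¹ * v) s ∧ g⁻¹ * v ∈ Λ ∧ X.nb (g⁻¹ * v) s ∈ Λ)
  rw [X.nb_mul]

lemma sd_act (P : Par) (g : H) (u : Seeds H S) (e : H × S) :
    sd P (Sys.actE g u) (tr g e) = sd P u e := by
  unfold sd
  rw [actE_apply, inv_tr]

lemma dynL_act [Fintype L] (hM : D_EQM) (X : Sys H S L) (P : Par) (g : H) (u : Seeds H S)
    (l : List (H × S)) : ∀ (O : Edges H S) (f : Cfg H S L),
    X.dynL P (sd P (Sys.actE g u)) (l.map (tr g)) (shE g O) (Sys.actC g f) =
      Sys.actC g (X.dynL P (sd P u) l O f) := by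
  induction l with
  | nil => intro O f; rfl
  | cons e l ih =>
    intro O f
    rw [List.map_cons]
    unfold Sys.dynL
    rw [sd_act, addE_act]
    have h := hM X P g O e.1 e.2 (sd P u e) f
    have h2 : X.Upd P (shE g O) (tr g e).1 (tr g e).2 (sd P u e) (Sys.actC g f) =
        Sys.actC g (X.Upd P O e.1 e.2 (sd P u e) f) := h
    rw [h2]
    exact ih _ _

lemma dyn_act [Fintype L] (hM : D_EQM) (hO : D_ORD) (X : Sys H S L) (P : Par) (ε ε' : ℝ) (g : H)
    (Λ : Set H) (q : Cfg H S L) (η : Env H S) (u : Seeds H S) :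
    X.dyn P ε ε' (trS g Λ) (Sys.actC g q) (Sys.actE g η) (Sys.actE g u) =
      Sys.actC g (X.dyn P ε ε' Λ q η u) := by
  unfold Sys.dyn
  rw [ordL_act hO, Op_act, inside_act]
  exact dynL_act hM X P g u _ _ _

lemma dite_choose_congr {α : Type} {p p' : α → Prop} {d d' : α} (hp : p = p') (hd : d = d')
    [Decidable (∃ f, p f)] [Decidable (∃ f, p' f)] :
    (if h : ∃ f, p f then h.choose else d) = (if h : ∃ f, p' f then h.choose else d') := by
  subst hp hd
  by_cases h : ∃ f, p f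
  · rw [dif_pos h, dif_pos h]
  · rw [dif_neg h, dif_neg h]

open Classical in
lemma eventually_act (g : H) (p : Set H → Prop) :
    (∀ᶠ Λ : Finset H in atTop, p (Λ : Set H)) ↔
      (∀ᶠ Λ : Finset H in atTop, p (trS g (Λ : Set H))) := by
  have hcoe : ∀ (k : H) (A : Finset H), ((A.image fun z => k * z : Finset H) : Set H) =
      trS k (A : Set H) := by
    intro k A
    ext z
    rw [mem_trS, Finset.mem_coe, Finset.mem_image, Finset.mem_coe]
    constructor
    · rintro ⟨a, ha, rfl⟩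
      rw [inv_mul_cancel_left]; exact ha
    · intro h
      exact ⟨_, h, mul_inv_cancel_left k z⟩
  rw [eventually_atTop, eventually_atTop]
  constructor
  · rintro ⟨A, hA⟩
    refine ⟨A.image fun z => g⁻¹ * z, fun B hB => ?_⟩
    rw [← hcoe]
    apply hA
    intro a ha
    rw [Finset.mem_image]
    exact ⟨g⁻¹ * a, hB (Finset.mem_image_of_mem _ ha), mul_inv_cancel_left g a⟩
  · rintro ⟨A, hA⟩
    refine ⟨A.image fun z => g * z, fun B hB => ?_⟩
    have h1 := hA (B.image fun z => g⁻¹ * z) (by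
      intro a ha
      rw [Finset.mem_image]
      exact ⟨g * a, hB (Finset.mem_image_of_mem _ ha), inv_mul_cancel_left g a⟩)
    have h2 : trS g ((B.image fun z => g⁻¹ * z : Finset H) : Set H) = (B : Set H) := by
      rw [hcoe]
      ext z
      rw [mem_trS, mem_trS, inv_inv, mul_inv_cancel_left]
    rw [h2] at h1
    exact h1

theorem eqb : D_EQB := by
  classical
  intro hM hO H S L _ _ X P ε ε' g q η u
  funext o
  change X.batch P ε ε' (Sys.actC g q) (Sys.actE g η) (Sys.actE g u) o =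
    X.batch P ε ε' q η u (g⁻¹ * o)
  unfold Sys.batch
  apply dite_choose_congr
  · funext f
    apply propext
    rw [eventually_act g (fun Λ => X.dyn P ε ε' Λ (Sys.actC g q) (Sys.actE g η)
      (Sys.actE g u) o = f)]
    simp only [dyn_act hM hO]
    exact Iff.rfl
  · rfl

end Pool.Agent.Helper44.OE
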